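import Pool.Agent.Mg.F9125cf.Gbd52a8

set_option autoImplicit false

namespace Pool.Agent.Results.MP_9125cf_lc.Intermediate

open Pool.Agent.MP_9125cf_lc

theorem result : ∃ K : Set Str, IsClass K ∧ Delta11 (indexSet K) ∧ Sigma11 (isoRel K) ∧
    ¬ Delta11 (isoRel K) ∧ ∃ K' : Set Str, IsClass K' ∧ Delta11 (indexSet K') ∧ ¬ HRed K' K :=
  intermediate

end Pool.Agent.Results.MP_9125cf_lc.Intermediate
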