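import Pool.Agent.Mg.F9125cf.Gbd52a8

set_option autoImplicit false

namespace Pool.Agent.Results.MP_9125cf_lc.UniqueHighRank

open Pool.Agent.MP_9125cf_lc

theorem result : ∃ K : Set Str, IsClass K ∧ Delta11 (indexSet K) ∧ ∃ A ∈ K, HighRank A ∧
    (∀ M ∈ K, HighRank M ↔ Iso M A) ∧ (∀ M ∈ K, ¬ Iso M A → scottRank M < omega1CK) ∧
    ∀ M ∈ K, (Delta11 (indexSet {N | N ∈ K ∧ Iso N M}) ↔ ¬ Iso M A) :=
  unique_high

end Pool.Agent.Results.MP_9125cf_lc.UniqueHighRank
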