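import Pool.Agent.MP_9125cf_lc.Cat

set_option autoImplicit false

namespace Pool.Agent.Results.MP_9125cf_lc.Universal

open Pool.Agent.MP_9125cf_lc

theorem result : ∀ E : ℕ → ℕ → Prop, Equivalence E → Sigma11 {q : ℕ × ℕ | E q.1 q.2} →
    ∃ K : Set Str, IsClass K ∧ Delta11 (indexSet K) ∧ (∀ M ∈ K, scottRank M = omega1CK + 1) ∧
      ∃ G F : ℕ → ℕ, Computable G ∧ Delta11 {q : ℕ × ℕ | F q.1 = q.2} ∧
        (∀ a, G a ∈ indexSet K) ∧ (∀ a b, E a b ↔ (G a, G b) ∈ isoRel K) ∧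
        (∀ e, ∀ M ∈ K, Codes e M → ∃ N, Codes (G (F e)) N ∧
          ∃ g : ℕ ≃ ℕ, Computable g ∧ ∀ i x y, M i x y ↔ N i (g x) (g y)) ∧
        ∀ (a b : ℕ) (M N : Str) (g : ℕ ≃ ℕ), Codes (G a) M → Codes (G b) N →
          (∀ i x y, M i x y ↔ N i (g x) (g y)) → Delta11 {q : ℕ × ℕ | g q.1 = q.2} → a = b :=
  U.universal_high

end Pool.Agent.Results.MP_9125cf_lc.Universal
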